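import Mathlib
import Pool.Agent.TH397.PZ.Final
import Pool.Agent.Helper242.SumTwoSq

/-! The prime factors of `b` are one modulo twelve, and the exceptional set has density zero. -/

namespace Pool.Agent.TH726.PZ

open Pool.Agent.TH397.PZ (num IsAlexander FoxMilnor isSquare_of_odd)

theorem jacobi_one (p n : ℕ) (hn : n ≠ 0)
    (h : ∀ q : ℕ, q.Prime → q ∣ n → IsSquare (p : ZMod q) ∧ (p : ZMod q) ≠ 0) :
    jacobiSym p n = 1 := by
  induction n using induction_on_primes with
  | zero => exact absurd rfl hn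
  | one => simp
  | prime_mul q a hq ih =>
    have ha : a ≠ 0 := by rintro rfl; simp at hn
    have hq0 : q ≠ 0 := hq.ne_zero
    rw [jacobiSym.mul_right' _ hq0 ha, ih ha (fun r hr hra => h r hr (hra.mul_left q)), mul_one]
    have := Fact.mk hq
    rw [← jacobiSym.legendreSym.to_jacobiSym]
    obtain ⟨h1, h2⟩ := h q hq (dvd_mul_right q a)
    rw [legendreSym.eq_one_iff]
    · exact_mod_cast h1
    · exact_mod_cast h2

/-- every prime factor of `b` is one modulo twelve -/
theorem prime_mod_twelve {b : ℕ} (hb : 2 ≤ b) {D : LaurentPolynomial ℤ}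
    (hD : IsAlexander (2 * b - 1) (-(2 * b + 1)) (-(b : ℤ) ^ 2) D) (hf : FoxMilnor D)
    {p : ℕ} (hp : p.Prime) (hpb : p ∣ b) : p % 12 = 1 := by
  obtain ⟨H, h4, h3, -⟩ := Pool.Agent.TH397.PZ.consequences hb hD hf
  have hp2 : p % 2 = 1 := by
    rcases hp.eq_two_or_odd with h | h
    · subst h; omega
    · exact h
  have hne : ∀ q : ℕ, q.Prime → q ∣ 2 * b + 1 → (p : ZMod q) ≠ 0 := by
    intro q hq hqd h0
    rw [ZMod.natCast_eq_zero_iff] at h0
    have := (Nat.prime_dvd_prime_iff_eq hq hp).mp h0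
    subst this
    have h1 : q ∣ 2 * b := hpb.mul_left 2
    have h2 : q ∣ 1 := (Nat.dvd_add_right h1).mp hqd
    exact hq.one_lt.ne' (Nat.dvd_one.mp h2)
  have hJ : jacobiSym p (2 * b + 1) = 1 := by
    apply jacobi_one p (2 * b + 1) (by omega)
    intro q hq hqd
    exact ⟨isSquare_of_odd (H p q hp hq hpb (hqd.mul_left _)), hne q hq hqd⟩
  have hJ1 : jacobiSym ((2 * b + 1 : ℕ) : ℤ) p = 1 := by
    have h1 : (((2 * b + 1 : ℕ) : ℤ)) % p = (1 : ℤ) % p := by
      obtain ⟨c, rfl⟩ := hpb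
      push_cast
      rw [show (2 * ((p : ℤ) * c) + 1) = 1 + p * (2 * c) by ring, Int.add_mul_emod_self_left]
    rw [jacobiSym.mod_left, h1, ← jacobiSym.mod_left, jacobiSym.one_left]
  have hp4 : p % 4 = 1 := by
    by_contra hcon
    have h34 : p % 4 = 3 := by omega
    have := jacobiSym.quadratic_reciprocity_three_mod_four (a := p) (b := 2 * b + 1) h34 (by omega)
    rw [hJ, hJ1] at this
    norm_num at this
  have hp3 : p % 3 = 1 := by
    have h2 := H p 3 hp Nat.prime_three hpb (Dvd.dvd.mul_left (by omega) _)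
    have h5 : p % 3 = 0 ∨ p % 3 = 1 ∨ p % 3 = 2 := by omega
    rcases h5 with h5 | h5 | h5
    · exfalso
      have h6 : 3 ∣ p := by omega
      have := (Nat.prime_dvd_prime_iff_eq Nat.prime_three hp).mp h6
      omega
    · exact h5
    · exfalso
      have h6 : ((p : ℕ) : ZMod 3) = -1 := by
        have : ((p : ℕ) : ZMod 3) = ((2 : ℕ) : ZMod 3) := by
          rw [ZMod.natCast_eq_natCast_iff']; omega
        rw [this]; decide
      rw [h6, orderOf_neg_one, ZMod.ringChar_zmod_n] at h2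
      norm_num at h2
  omega

theorem sum_two_squares {b : ℕ} (hb : 2 ≤ b) {D : LaurentPolynomial ℤ}
    (hD : IsAlexander (2 * b - 1) (-(2 * b + 1)) (-(b : ℤ) ^ 2) D) (hf : FoxMilnor D) :
    ∃ x y : ℕ, b = x ^ 2 + y ^ 2 := by
  rw [Nat.eq_sq_add_sq_iff]
  intro q hq hq3
  have hq' := Nat.mem_primeFactors.mp hq
  have := prime_mod_twelve hb hD hf hq'.1 hq'.2.1
  omega

open Classical in
/-- the set of all `b ≥ 2` for which the Alexander polynomial of `P(2b-1, -(2b+1), -2b²)` satisfies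
the condition of Fox and Milnor has natural density zero -/
theorem exceptional_density_zero (ε : ℝ) (hε : 0 < ε) :
    ∃ X₀ : ℕ, ∀ X ≥ X₀, (((Finset.range X).filter (fun b : ℕ => 2 ≤ b ∧
      ∃ D : LaurentPolynomial ℤ, IsAlexander (2 * b - 1) (-(2 * b + 1)) (-(b : ℤ) ^ 2) D ∧
        FoxMilnor D)).card : ℝ) ≤ ε * X := by
  set S : Set ℕ := {b : ℕ | 2 ≤ b ∧
      ∃ D : LaurentPolynomial ℤ, IsAlexander (2 * b - 1) (-(2 * b + 1)) (-(b : ℤ) ^ 2) D ∧
        FoxMilnor D} with hS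
  obtain ⟨X₀, hX₀⟩ := Pool.Agent.Helper242.SumTwoSq.density_zero S (by
    rintro r ⟨hr, D, hD, hf⟩
    exact sum_two_squares hr hD hf) ε hε
  refine ⟨X₀, fun X hX => ?_⟩
  have := hX₀ X hX
  refine le_trans (le_of_eq ?_) this
  norm_cast

end Pool.Agent.TH726.PZ
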