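import Mathlib

/-! Reduction from Laurent polynomials to polynomials. -/

namespace Pool.Agent.TH726.PZ

open Polynomial

/-- `1 - X + X^2 - ... ` (`k` terms) -/
noncomputable def ePoly (k : ℕ) : ℤ[X] := ∑ i ∈ Finset.range k, (-X) ^ i

/-- The polynomial `t ^ (2m-1) Δ_m(t)`. -/
noncomputable def dPoly (m : ℕ) : ℤ[X] :=
  ePoly (2 * m - 1) * ePoly (2 * m + 1) - (m : ℤ[X]) ^ 2 * X ^ (2 * m - 2) * (X - 1) ^ 2

theorem ePoly_mul (k : ℕ) : (X + 1) * ePoly k = 1 - (-X) ^ k := by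
  have := mul_neg_geom_sum (-X : ℤ[X]) k
  rw [ePoly]
  linear_combination this

theorem ePoly_mul_odd (k : ℕ) (hk : Odd k) : (X + 1) * ePoly k = X ^ k + 1 := by
  rw [ePoly_mul, hk.neg_pow]; ring

theorem ePoly_natDegree (k : ℕ) (hk : Odd k) : (ePoly k).natDegree = k - 1 := by
  have h1 := ePoly_mul_odd k hk
  have h2 : ((X : ℤ[X]) ^ k + 1).natDegree = k := by
    have : ((X : ℤ[X]) ^ k + C 1).natDegree = k := natDegree_X_pow_add_C
    simpa using this
  have h3 : ((X : ℤ[X]) + 1).natDegree = 1 := by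
    have : ((X : ℤ[X]) + C 1).natDegree = 1 := natDegree_X_add_C 1
    simpa using this
  have h4 : ePoly k ≠ 0 := by
    rintro h
    rw [h, mul_zero] at h1
    rw [← h1] at h2
    simp at h2
    have := hk.pos
    omega
  have h5 : ((X : ℤ[X]) + 1) ≠ 0 := by
    intro h; rw [h] at h3; simp at h3
  have h6 := natDegree_mul h5 h4
  rw [h1, h2, h3] at h6
  omega

theorem ePoly_eval_one (k : ℕ) (hk : Odd k) : (ePoly k).eval 1 = 1 := by
  have := congrArg (eval 1) (ePoly_mul_odd k hk)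
  simp at this
  linarith

theorem ePoly_coeff (k i : ℕ) : (ePoly k).coeff i = if i < k then (-1) ^ i else 0 := by
  rw [ePoly, finsetSum_coeff]
  have : ∀ j, ((-X : ℤ[X]) ^ j).coeff i = if i = j then (-1) ^ j else 0 := by
    intro j
    rw [neg_pow, show ((-1 : ℤ[X]) ^ j) = C ((-1) ^ j) by simp, coeff_C_mul, coeff_X_pow]
    split_ifs <;> simp
  simp only [this]
  rw [Finset.sum_ite_eq]
  simp

theorem dPoly_coeff_zero (m : ℕ) (hm : 2 ≤ m) : (dPoly m).coeff 0 = 1 := by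
  obtain ⟨r, rfl⟩ : ∃ r, m = r + 2 := ⟨m - 2, by omega⟩
  rw [dPoly, coeff_sub, mul_coeff_zero, ePoly_coeff, ePoly_coeff]
  have : 2 * (r + 2) - 2 = (2 * r + 1) + 1 := by omega
  rw [this, pow_succ, if_pos (by omega), if_pos (by omega)]
  simp [mul_coeff_zero]

theorem dPoly_coeff_one (m : ℕ) (hm : 2 ≤ m) : (dPoly m).coeff 1 = -2 := by
  obtain ⟨r, rfl⟩ : ∃ r, m = r + 2 := ⟨m - 2, by omega⟩
  have e1 : (ePoly (2 * (r + 2) - 1) * ePoly (2 * (r + 2) + 1)).coeff 1 = -2 := by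
    rw [coeff_mul, Finset.Nat.antidiagonal_succ]
    simp only [Finset.sum_cons, Finset.Nat.antidiagonal_zero, Finset.map_singleton,
      Finset.sum_singleton, ePoly_coeff, Function.Embedding.prodMap, Function.Embedding.coeFn_mk,
      Prod.map, Function.Embedding.refl_apply]
    rw [if_pos (by omega), if_pos (by omega), if_pos (by simp; omega), if_pos (by omega)]
    simp
  have e2 : (((r + 2 : ℕ) : ℤ[X]) ^ 2 * X ^ (2 * (r + 2) - 2) * (X - 1) ^ 2).coeff 1 = 0 := by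
    have : ((r + 2 : ℕ) : ℤ[X]) ^ 2 * X ^ (2 * (r + 2) - 2) * (X - 1) ^ 2
        = (((r + 2 : ℕ) : ℤ[X]) ^ 2 * X ^ (2 * r) * (X - 1) ^ 2) * X ^ 2 := by
      have : 2 * (r + 2) - 2 = 2 * r + 2 := by omega
      rw [this]; ring
    rw [this, coeff_mul_X_pow']
    simp
  rw [dPoly, coeff_sub, e1, e2]; norm_num

theorem dPoly_mul (m : ℕ) (hm : 1 ≤ m) : (X + 1) ^ 2 * dPoly m
    = (X ^ (2 * m - 1) + 1) * (X ^ (2 * m + 1) + 1)
      - (m : ℤ[X]) ^ 2 * X ^ (2 * m - 2) * (X ^ 2 - 1) ^ 2 := by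
  have h1 := ePoly_mul_odd (2 * m - 1) (by rw [Nat.odd_iff]; omega)
  have h2 := ePoly_mul_odd (2 * m + 1) (by rw [Nat.odd_iff]; omega)
  rw [dPoly, ← h1, ← h2]; ring

theorem dPoly_eval_one (m : ℕ) (hm : 1 ≤ m) : (dPoly m).eval 1 = 1 := by
  rw [dPoly]
  simp [ePoly_eval_one (2 * m - 1) (by rw [Nat.odd_iff]; omega),
    ePoly_eval_one (2 * m + 1) (by rw [Nat.odd_iff]; omega)]

theorem dPoly_natDegree (m : ℕ) (hm : 2 ≤ m) : (dPoly m).natDegree = 4 * m - 2 := by
  have h1 := ePoly_natDegree (2 * m - 1) (by rw [Nat.odd_iff]; omega)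
  have h2 := ePoly_natDegree (2 * m + 1) (by rw [Nat.odd_iff]; omega)
  have h3 : (ePoly (2 * m - 1) * ePoly (2 * m + 1)).natDegree = 4 * m - 2 := by
    rw [natDegree_mul]
    · omega
    · intro h; rw [h] at h1; simp at h1; omega
    · intro h; rw [h] at h2; simp at h2; omega
  have h4 : ((m : ℤ[X]) ^ 2 * X ^ (2 * m - 2) * (X - 1) ^ 2).natDegree ≤ 2 * m := by
    calc _ ≤ ((m : ℤ[X]) ^ 2 * X ^ (2 * m - 2)).natDegree + ((X - 1) ^ 2 : ℤ[X]).natDegree :=
          natDegree_mul_le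
      _ ≤ (2 * m - 2) + 2 := by
          gcongr
          · rw [show ((m : ℤ[X]) ^ 2) = C ((m : ℤ) ^ 2) by simp]
            exact natDegree_C_mul_X_pow_le _ _
          · calc _ ≤ 2 * (X - 1 : ℤ[X]).natDegree := natDegree_pow_le
              _ = 2 := by
                have : (X - C 1 : ℤ[X]).natDegree = 1 := natDegree_X_sub_C 1
                rw [map_one] at this
                rw [this]
      _ = _ := by omega
  rw [dPoly, natDegree_sub_eq_left_of_natDegree_lt]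
  · exact h3
  · rw [h3]; omega

theorem eval_one_reverse (P : ℤ[X]) : P.reverse.eval 1 = P.eval 1 := by
  letI : Invertible (1 : ℤ) := invertibleOne
  have := eval₂_reverse_mul_pow (RingHom.id ℤ) (1 : ℤ) P
  simpa [eval₂_eq_eval_map] using this

end Pool.Agent.TH726.PZ
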