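import Mathlib
import Pool.Agent.TH726.PZ.Poly
import Pool.Agent.TH397.PZ.Defs

/-! From Laurent polynomials to polynomials. -/

namespace Pool.Agent.TH726.PZ

open Polynomial
open Pool.Agent.TH397.PZ (num IsAlexander FoxMilnor)
open LaurentPolynomial (T)

/-- the Laurent polynomial `T 1` -/
noncomputable abbrev tt : LaurentPolynomial ℤ := T 1
noncomputable abbrev uu : LaurentPolynomial ℤ := T (-1)

theorem tt_uu : tt * uu = 1 := by
  rw [tt, uu, ← LaurentPolynomial.T_add]; simp

theorem T_nat (n : ℕ) : (T (n : ℤ) : LaurentPolynomial ℤ) = tt ^ n := by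
  rw [tt, LaurentPolynomial.T_pow]; simp

theorem T_neg_nat (n : ℕ) : (T (-(n : ℤ)) : LaurentPolynomial ℤ) = uu ^ n := by
  rw [uu, LaurentPolynomial.T_pow]; simp

theorem num_eq (b : ℕ) : num (2 * b - 1) (-(2 * b + 1)) (-(b : ℤ) ^ 2) =
    tt + uu + tt ^ (2 * b) + uu ^ (2 * b) - (b : LaurentPolynomial ℤ) ^ 2 * (tt - uu) ^ 2 := by
  have e1 : ((2 * b - 1 : ℤ) + (-(2 * b + 1))) / 2 = -1 := by omega
  have e2 : ((2 * b - 1 : ℤ) - (-(2 * b + 1))) / 2 = ((2 * b : ℕ) : ℤ) := by push_cast; omega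
  have e3 : (LaurentPolynomial.C (-(b : ℤ) ^ 2) : LaurentPolynomial ℤ)
      = -(b : LaurentPolynomial ℤ) ^ 2 := by simp
  rw [num, e1, e2, neg_neg, e3, T_nat, T_neg_nat]
  ring

theorem toLaurent_key (b : ℕ) (hb : 1 ≤ b) :
    toLaurent ((X + 1) ^ 2 * dPoly b)
      = tt ^ (2 * b) * num (2 * b - 1) (-(2 * b + 1)) (-(b : ℤ) ^ 2) := by
  rw [dPoly_mul b hb, num_eq]
  simp only [map_mul, map_add, map_sub, map_pow, map_one, map_natCast, Polynomial.toLaurent_X]
  have h4 : tt ^ (2 * b) * uu ^ (2 * b) = 1 := by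
    rw [← mul_pow, tt_uu, one_pow]
  have h1 : tt ^ (2 * b) = tt ^ (2 * b - 2) * tt ^ 2 := by rw [← pow_add]; congr 1; omega
  have h2 : tt ^ (2 * b - 1) = tt ^ (2 * b - 2) * tt := by rw [← pow_succ]; congr 1; omega
  have h3 : tt ^ (2 * b + 1) = tt ^ (2 * b - 2) * tt ^ 3 := by rw [← pow_add]; congr 1; omega
  have h5 := tt_uu
  have h6 : tt ^ (2 * b) * (tt + uu + tt ^ (2 * b) + uu ^ (2 * b)
      - (b : LaurentPolynomial ℤ) ^ 2 * (tt - uu) ^ 2)
      = tt ^ (2 * b) * (tt + uu + tt ^ (2 * b)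
      - (b : LaurentPolynomial ℤ) ^ 2 * (tt - uu) ^ 2) + 1 := by
    linear_combination h4
  rw [h6, h1, h2, h3]
  change (tt ^ (2 * b - 2) * tt + 1) * (tt ^ (2 * b - 2) * tt ^ 3 + 1)
    - (b : LaurentPolynomial ℤ) ^ 2 * tt ^ (2 * b - 2) * (tt ^ 2 - 1) ^ 2 = _
  generalize tt ^ (2 * b - 2) = w
  generalize tt = t at *
  generalize uu = u at *
  linear_combination (-w * t - (b : LaurentPolynomial ℤ) ^ 2 * w * (2 * t ^ 2 - 1 - t * u)) * h5

theorem bridge (b : ℕ) (hb : 2 ≤ b) (D : LaurentPolynomial ℤ)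
    (hD : IsAlexander (2 * b - 1) (-(2 * b + 1)) (-(b : ℤ) ^ 2) D) (hf : FoxMilnor D) :
    ∃ P : ℤ[X], P.natDegree = 2 * b - 1 ∧ P * P.reverse = dPoly b := by
  obtain ⟨ε, k, f, hε, hDf⟩ := hf
  rw [IsAlexander] at hD
  -- a polynomial with nonzero constant term
  obtain ⟨n, P0, hP0⟩ := LaurentPolynomial.exists_T_pow f
  have hf0 : f ≠ 0 := by
    rintro rfl
    simp only [zero_mul, mul_zero] at hDf
    rw [hDf, mul_zero] at hD
    have h1 := toLaurent_key b (by omega)
    rw [← hD, mul_zero] at h1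
    have h2 := Polynomial.toLaurent_eq_zero.mp h1
    have h3 := congrArg (eval 1) h2
    rw [eval_mul, dPoly_eval_one b (by omega)] at h3
    norm_num at h3
  have hP0' : P0 ≠ 0 := by
    rintro rfl
    apply hf0
    have h1 : f * T (n : ℤ) * T (-(n : ℤ)) = 0 := by rw [← hP0]; simp
    rw [mul_assoc, ← LaurentPolynomial.T_add] at h1
    simpa using h1
  obtain ⟨P, hP, hPX⟩ := exists_eq_pow_rootMultiplicity_mul_and_not_dvd P0 hP0' 0
  rw [map_zero, sub_zero] at hP hPX
  set r := P0.rootMultiplicity 0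
  have hPc : P.coeff 0 ≠ 0 := by
    intro h; exact hPX (X_dvd_iff.mpr h)
  have hPne : P ≠ 0 := by rintro rfl; simp at hPc
  have hTT : ∀ a c : ℤ, (T a : LaurentPolynomial ℤ) * T c = T (a + c) :=
    fun a c => (LaurentPolynomial.T_add a c).symm
  have hTinv : ∀ a : ℤ, (T a : LaurentPolynomial ℤ) * T (-a) = 1 := by
    intro a; rw [hTT]; simp
  have hPL : toLaurent P = f * T ((n : ℤ) - r) := by
    have h1 : toLaurent P0 = T (r : ℤ) * toLaurent P := by
      rw [hP, map_mul, Polynomial.toLaurent_X_pow]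
    rw [hP0] at h1
    calc toLaurent P = (T (r : ℤ) * T (-(r : ℤ))) * toLaurent P := by rw [hTinv, one_mul]
      _ = T (-(r : ℤ)) * (T (r : ℤ) * toLaurent P) := by ring
      _ = f * (T (n : ℤ) * T (-(r : ℤ))) := by rw [← h1]; ring
      _ = _ := by rw [hTT, ← sub_eq_add_neg]
  set d := P.natDegree with hd
  have hrev : toLaurent P.reverse = LaurentPolynomial.invert f * T ((r : ℤ) - n) * T d := by
    rw [LaurentPolynomial.toLaurent_reverse, hPL, map_mul, LaurentPolynomial.invert_T, neg_sub]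
  have hPP : toLaurent (P * P.reverse) = f * LaurentPolynomial.invert f * T d := by
    rw [map_mul, hPL, hrev]
    have : (T ((n : ℤ) - r) : LaurentPolynomial ℤ) * T ((r : ℤ) - n) = 1 := by
      rw [hTT]; simp
    linear_combination (f * LaurentPolynomial.invert f * T d) * this
  have hX1 : toLaurent ((X + 1 : ℤ[X]) ^ 2) = tt * (tt + 2 + uu) := by
    simp only [map_pow, map_add, map_one, Polynomial.toLaurent_X]
    linear_combination (-1 : LaurentPolynomial ℤ) * tt_uu
  have hmain : toLaurent (Polynomial.C ε * ((X + 1) ^ 2 * (P * P.reverse))) * T k * tt ^ (2 * b)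
      = T d * tt * toLaurent ((X + 1) ^ 2 * dPoly b) := by
    rw [toLaurent_key b (by omega), map_mul, map_mul, hX1, hPP, ← hD, hDf,
      Polynomial.toLaurent_C]
    ring
  -- compare exponents
  have hmain2 : ∀ A B : ℤ[X], A.coeff 0 ≠ 0 → B.coeff 0 ≠ 0 → ∀ e1 e2 : ℤ,
      toLaurent A * T e1 = toLaurent B * T e2 → A = B := by
    intro A B hA hB e1 e2 h
    rcases le_total e1 e2 with h12 | h12
    · obtain ⟨e, he⟩ := Int.le.dest h12
      have h1 : toLaurent A = toLaurent (B * X ^ e) := by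
        rw [map_mul, Polynomial.toLaurent_X_pow]
        calc toLaurent A = toLaurent A * (T e1 * T (-e1)) := by rw [hTinv, mul_one]
          _ = (toLaurent A * T e1) * T (-e1) := by ring
          _ = toLaurent B * (T e2 * T (-e1)) := by rw [h]; ring
          _ = _ := by rw [hTT]; congr 2; omega
      have h2 := Polynomial.toLaurent_injective h1
      rcases Nat.eq_zero_or_pos e with h0 | h0
      · rw [h2, h0]; simp
      · exfalso; apply hA
        rw [h2, mul_coeff_zero, coeff_X_pow, if_neg (by omega), mul_zero]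
    · obtain ⟨e, he⟩ := Int.le.dest h12
      have h1 : toLaurent B = toLaurent (A * X ^ e) := by
        rw [map_mul, Polynomial.toLaurent_X_pow]
        calc toLaurent B = toLaurent B * (T e2 * T (-e2)) := by rw [hTinv, mul_one]
          _ = (toLaurent B * T e2) * T (-e2) := by ring
          _ = toLaurent A * (T e1 * T (-e2)) := by rw [← h]; ring
          _ = _ := by rw [hTT]; congr 2; omega
      have h2 := Polynomial.toLaurent_injective h1
      rcases Nat.eq_zero_or_pos e with h0 | h0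
      · rw [h2, h0]; simp
      · exfalso; apply hB
        rw [h2, mul_coeff_zero, coeff_X_pow, if_neg (by omega), mul_zero]
  have hε0 : ε ≠ 0 := by rcases hε with h | h <;> rw [h] <;> norm_num
  have hAB := hmain2 (Polynomial.C ε * ((X + 1) ^ 2 * (P * P.reverse))) ((X + 1) ^ 2 * dPoly b)
    (by
      rw [mul_coeff_zero, mul_coeff_zero, mul_coeff_zero, coeff_zero_reverse]
      have h1 : ((X + 1 : ℤ[X]) ^ 2).coeff 0 = 1 := by
        rw [coeff_zero_eq_eval_zero]; simp
      rw [h1, coeff_C_zero, one_mul]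
      exact mul_ne_zero hε0 (mul_ne_zero hPc (leadingCoeff_ne_zero.mpr hPne)))
    (by
      rw [mul_coeff_zero, dPoly_coeff_zero b hb]
      have h1 : ((X + 1 : ℤ[X]) ^ 2).coeff 0 = 1 := by
        rw [coeff_zero_eq_eval_zero]; simp
      rw [h1]; norm_num)
    (k + ((2 * b : ℕ) : ℤ)) ((d : ℤ) + 1) (by
      rw [← hTT, ← hTT, T_nat (2 * b), ← mul_assoc, hmain]
      ring)
  have hX1ne : ((X + 1 : ℤ[X]) ^ 2) ≠ 0 := by
    intro h
    have := congrArg (eval 0) h
    simp at this
  have hPd : Polynomial.C ε * (P * P.reverse) = dPoly b := by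
    apply mul_left_cancel₀ hX1ne
    rw [← hAB]; ring
  have hε1 : ε = 1 := by
    have h1 := congrArg (eval 1) hPd
    rw [eval_mul, eval_C, eval_mul, eval_one_reverse, dPoly_eval_one b (by omega)] at h1
    rcases hε with h | h
    · exact h
    · rw [h] at h1; nlinarith [sq_nonneg (P.eval 1)]
  rw [hε1, map_one, one_mul] at hPd
  refine ⟨P, ?_, hPd⟩
  have h1 := congrArg natDegree hPd
  rw [dPoly_natDegree b hb, natDegree_mul hPne (by rwa [ne_eq, reverse_eq_zero])] at h1
  have h2 : P.reverse.natDegree = P.natDegree := by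
    rw [reverse_natDegree, natTrailingDegree_eq_zero.mpr (Or.inr hPc), Nat.sub_zero]
  omega

end Pool.Agent.TH726.PZ
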