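import Mathlib

/-! Multiplier lemma in a ring with a Frobenius lift of finite order. -/

namespace Pool.Agent.TH726.PZ

section core
variable {A : Type*} [CommRing A]

theorem frob_iter (p : ℕ) (φ : A →+* A) (hφ : ∀ x, (p : A) ∣ φ x - x ^ p) (j : ℕ) (x : A) :
    (p : A) ∣ (φ^[j]) x - x ^ (p ^ j) := by
  induction j generalizing x with
  | zero => simp
  | succ j ih =>
    rw [Function.iterate_succ_apply']
    have h1 := hφ ((φ^[j]) x)
    have h2 : (p : A) ∣ ((φ^[j]) x) ^ p - (x ^ (p ^ j)) ^ p :=
      (ih x).trans (sub_dvd_pow_sub_pow _ _ _)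
    have h3 := dvd_add h1 h2
    rw [pow_succ, pow_mul]
    convert h3 using 1
    ring

theorem mult_core (p : ℕ) (hp : p.Prime) (φ : A →+* A) (hφ : ∀ x, (p : A) ∣ φ x - x ^ p)
    (f : ℕ) (hf : 1 ≤ f) (hid : ∀ x, (φ^[f]) x = x) (hreg : ∀ x : A, (p : A) * x = 0 → x = 0)
    (K : ℕ) (x y : A) (hxy : (p : A) ^ K ∣ x * y) : (p : A) ^ K ∣ φ x * y := by
  induction K generalizing x with
  | zero => simp
  | succ K ih =>
    set q := p ^ f with hq
    have hq2 : 2 ≤ q := by
      calc 2 ≤ p := hp.two_le
        _ = p ^ 1 := (pow_one p).symm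
        _ ≤ p ^ f := Nat.pow_le_pow_right hp.pos hf
    have hx : (p : A) ∣ x - x ^ q := by
      have := frob_iter p φ hφ f x
      rwa [hid x] at this
    obtain ⟨r, hr⟩ : ∃ r, q = r + 2 := ⟨q - 2, by omega⟩
    set u := x ^ (r + 1) with hu
    have hxu : (p : A) ∣ x * (1 - u) := by
      convert hx using 1
      rw [hu, hr]; ring
    have huu : (p : A) ∣ u - u ^ 2 := by
      have : u - u ^ 2 = x ^ r * (x * (1 - u)) := by rw [hu]; ring
      rw [this]; exact hxu.mul_left _
    have hup : ∀ k, (p : A) ∣ u ^ (k + 1) - u := by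
      intro k
      induction k with
      | zero => simp
      | succ k ihk =>
        have : u ^ (k + 1 + 1) - u = u * (u ^ (k + 1) - u) - (u - u ^ 2) := by ring
        rw [this]
        exact dvd_sub (ihk.mul_left _) huu
    have hpp : (p : A) ∣ u ^ p - u := by
      obtain ⟨k, hk⟩ : ∃ k, p = k + 1 := ⟨p - 1, by have := hp.pos; omega⟩
      have := hup k
      rwa [← hk] at this
    have hφu : (p : A) ∣ φ u - u := by
      have := dvd_add (hφ u) hpp
      simpa using this
    set e := u ^ (p ^ (K + 1)) with he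
    have hφe : (p : A) ^ (K + 1 + 1) ∣ φ e - e := by
      have := dvd_sub_pow_of_dvd_sub hφu (K + 1)
      rw [he, map_pow]
      exact_mod_cast this
    have hxe : (p : A) ∣ x * (1 - e) := by
      have h1 : (1 - u) ∣ 1 - e := by
        have := sub_dvd_pow_sub_pow (1 : A) u (p ^ (K + 1))
        rwa [one_pow] at this
      exact hxu.trans (mul_dvd_mul_left _ h1)
    obtain ⟨z, hz⟩ := hxe
    have hzy : (p : A) ^ K ∣ z * y := by
      have h1 : (p : A) ^ (K + 1) ∣ (p : A) * (z * y) := by
        have : (p : A) * (z * y) = (1 - e) * (x * y) := by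
          calc (p : A) * (z * y) = (p * z) * y := by ring
            _ = (x * (1 - e)) * y := by rw [hz]
            _ = _ := by ring
        rw [this]; exact hxy.mul_left _
      obtain ⟨w, hw⟩ := h1
      refine ⟨w, ?_⟩
      have h2 : (p : A) * (z * y - (p : A) ^ K * w) = 0 := by
        rw [mul_sub, hw]; ring
      exact sub_eq_zero.mp (hreg _ h2)
    have hIH := ih z hzy
    have h1 : (p : A) ^ (K + 1) ∣ φ x * (1 - φ e) * y := by
      have : φ x * (1 - φ e) * y = p * (φ z * y) := by
        have h3 : φ (x * (1 - e)) = φ ((p : A) * z) := by rw [hz]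
        rw [map_mul, map_mul, map_sub, map_one, map_natCast] at h3
        rw [h3]; ring
      rw [this, pow_succ']
      exact mul_dvd_mul_left _ hIH
    have h2 : (p : A) ^ (K + 1) ∣ φ x * φ e * y := by
      have h3 : (p : A) ^ (K + 1) ∣ φ e - e := (pow_dvd_pow _ (by omega)).trans hφe
      have h4 : (p : A) ^ (K + 1) ∣ e * y := by
        have h5 : x ∣ e := by
          rw [he, hu, ← pow_mul]
          apply dvd_pow_self
          have := Nat.pos_of_ne_zero (pow_ne_zero (K + 1) hp.ne_zero)
          positivity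
        obtain ⟨w, hw⟩ := h5
        have : e * y = w * (x * y) := by rw [hw]; ring
        rw [this]; exact hxy.mul_left _
      have : φ x * φ e * y = φ x * y * (φ e - e) + φ x * (e * y) := by ring
      rw [this]
      exact dvd_add (h3.mul_left _) (h4.mul_left _)
    have h3 : φ x * y = φ x * (1 - φ e) * y + φ x * φ e * y := by ring
    rw [h3]
    exact dvd_add h1 h2

theorem mult_iter (p : ℕ) (hp : p.Prime) (φ : A →+* A) (hφ : ∀ x, (p : A) ∣ φ x - x ^ p)
    (f : ℕ) (hf : 1 ≤ f) (hid : ∀ x, (φ^[f]) x = x) (hreg : ∀ x : A, (p : A) * x = 0 → x = 0)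
    (j K : ℕ) (x y : A) (hxy : (p : A) ^ K ∣ x * y) : (p : A) ^ K ∣ (φ^[j]) x * y := by
  induction j with
  | zero => simpa using hxy
  | succ j ih =>
    rw [Function.iterate_succ_apply']
    exact mult_core p hp φ hφ f hf hid hreg K _ y ih

end core

end Pool.Agent.TH726.PZ
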