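import Mathlib
import Pool.Agent.TH726.PZ.Core

/-! The group ring `ℤ[C_M]`, the multipliers, and elements of constant absolute value. -/

namespace Pool.Agent.TH726.PZ

open AddMonoidAlgebra

/-- The integral group ring of the cyclic group of order `M`. -/
abbrev GR (M : ℕ) := AddMonoidAlgebra ℤ (ZMod M)

/-- The ring endomorphism `s ↦ s ^ k`. -/
noncomputable def phi (M k : ℕ) : GR M →+* GR M :=
  AddMonoidAlgebra.mapDomainRingHom ℤ (nsmulAddMonoidHom k : ZMod M →+ ZMod M)

/-- The involution `s ↦ s⁻¹`. -/
noncomputable def str (M : ℕ) : GR M →+* GR M :=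
  AddMonoidAlgebra.mapDomainRingHom ℤ (negAddMonoidHom : ZMod M →+ ZMod M)

theorem phi_single (M k : ℕ) (a : ZMod M) (r : ℤ) :
    phi M k (single a r) = single (k • a) r := by
  simp [phi]

theorem str_single (M : ℕ) (a : ZMod M) (r : ℤ) :
    str M (single a r) = single (-a) r := by
  simp [str]

theorem gr_induction {M : ℕ} {P : GR M → Prop} (x : GR M) (h0 : P 0)
    (hadd : ∀ x y, P x → P y → P (x + y)) (hs : ∀ a r, P (single a r)) : P x :=
  AddMonoidAlgebra.induction_linear x h0 hadd hs

theorem phi_phi (M k l : ℕ) (x : GR M) : phi M k (phi M l x) = phi M (k * l) x := by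
  induction x using gr_induction with
  | h0 => simp
  | hadd x y hx hy => simp [hx, hy]
  | hs a r => simp [phi_single, mul_smul]

theorem phi_one (M : ℕ) (x : GR M) : phi M 1 x = x := by
  induction x using gr_induction with
  | h0 => simp
  | hadd x y hx hy => simp [hx, hy]
  | hs a r => simp [phi_single]

theorem phi_congr (M : ℕ) {k l : ℕ} (h : (k : ZMod M) = l) (x : GR M) :
    phi M k x = phi M l x := by
  induction x using gr_induction with
  | h0 => simp
  | hadd x y hx hy => simp [hx, hy]
  | hs a r => simp [phi_single, h]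

theorem phi_iter (M k j : ℕ) (x : GR M) : (phi M k)^[j] x = phi M (k ^ j) x := by
  induction j with
  | zero => simp [phi_one]
  | succ j ih => rw [Function.iterate_succ_apply', ih, phi_phi, pow_succ']

theorem phi_str (M k : ℕ) (x : GR M) : phi M k (str M x) = str M (phi M k x) := by
  induction x using gr_induction with
  | h0 => simp
  | hadd x y hx hy => simp [hx, hy]
  | hs a r => simp [phi_single, str_single]

theorem str_str (M : ℕ) (x : GR M) : str M (str M x) = x := by
  induction x using gr_induction with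
  | h0 => simp
  | hadd x y hx hy => simp [hx, hy]
  | hs a r => simp [str_single]

theorem phi_frob (M p : ℕ) (hp : p.Prime) (x : GR M) : (p : GR M) ∣ phi M p x - x ^ p := by
  induction x using gr_induction with
  | h0 => simp [hp.ne_zero]
  | hadd x y hx hy =>
    obtain ⟨r, hr⟩ := exists_add_pow_prime_eq hp x y
    rw [hr, map_add]
    have : phi M p x + phi M p y - (x ^ p + y ^ p + p * x * y * r)
        = (phi M p x - x ^ p) + (phi M p y - y ^ p) - p * (x * y * r) := by ring
    rw [this]
    exact dvd_sub (dvd_add hx hy) (dvd_mul_right _ _)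
  | hs a r =>
    rw [phi_single, single_pow]
    have h1 : (p : ℤ) ∣ r - r ^ p := by
      have := Fact.mk hp
      rw [← ZMod.intCast_zmod_eq_zero_iff_dvd]
      simp
    obtain ⟨c, hc⟩ := h1
    refine ⟨single (p • a) c, ?_⟩
    rw [← AddMonoidAlgebra.single_sub, hc]
    have : (p : GR M) = single (0 : ZMod M) (p : ℤ) := by
      rfl
    rw [this, single_mul_single, zero_add]

theorem natCast_mul_coeff (M n : ℕ) (x : GR M) (i : ZMod M) :
    ((n : GR M) * x).coeff i = n * x.coeff i := by
  have : (n : GR M) = single (0 : ZMod M) (n : ℤ) := rfl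
  rw [this]
  exact coeff_single_zero_mul x n i

theorem natCast_reg (M n : ℕ) (hn : n ≠ 0) (x : GR M) (h : (n : GR M) * x = 0) : x = 0 := by
  ext i
  have := congrArg (fun y : GR M => y.coeff i) h
  simp only [natCast_mul_coeff] at this
  simpa [hn] using this

theorem natCast_dvd_iff (M n : ℕ) [NeZero M] (x : GR M) :
    (n : GR M) ∣ x ↔ ∀ i, (n : ℤ) ∣ x.coeff i := by
  constructor
  · rintro ⟨y, rfl⟩ i
    rw [natCast_mul_coeff]; exact dvd_mul_right _ _
  · intro h
    choose c hc using h
    refine ⟨⟨Finsupp.equivFunOnFinite.symm c⟩, ?_⟩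
    ext i
    rw [natCast_mul_coeff]
    simp [hc i]

theorem coeff_mul_str (M : ℕ) [NeZero M] (x : GR M) :
    (x * str M x).coeff 0 = ∑ i : ZMod M, x.coeff i ^ 2 := by
  have hstr : ∀ i, (str M x).coeff i = x.coeff (-i) := by
    intro i
    induction x using gr_induction with
    | h0 => simp
    | hadd x y hx hy => simp [hx, hy]
    | hs a r =>
      rw [str_single]
      simp only [coeff_single, Finsupp.single_apply]
      by_cases h : -a = i
      · subst h; simp
      · have : a ≠ -i := fun h' => h (by rw [h']; simp)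
        simp [h, this]
  rw [coeff_mul_apply_left, Finsupp.sum_fintype]
  · apply Finset.sum_congr rfl
    intro i _
    rw [hstr]; simp [sq]
  · intro i; simp

/-- the only elements `E` of `ℤ[C_M]` with `E E* = 1` are `± s ^ c` -/
theorem unitary_one (M : ℕ) [NeZero M] (E : GR M) (hE : E * str M E = 1) :
    ∃ c : ZMod M, (2 : GR M) ∣ E - single c 1 := by
  have h1 : ∑ i : ZMod M, E.coeff i ^ 2 = 1 := by
    rw [← coeff_mul_str, hE]
    simp [AddMonoidAlgebra.one_def]
  obtain ⟨c, hc⟩ : ∃ c, E.coeff c ≠ 0 := by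
    by_contra hcon
    push Not at hcon
    simp [hcon] at h1
  have h2 : ∀ i, i ≠ c → E.coeff i = 0 := by
    intro i hi
    by_contra hne
    have h3 : E.coeff c ^ 2 + E.coeff i ^ 2 ≤ ∑ i : ZMod M, E.coeff i ^ 2 := by
      have := Finset.sum_le_sum_of_subset_of_nonneg (f := fun i => E.coeff i ^ 2)
        (s := {c, i}) (t := Finset.univ) (Finset.subset_univ _)
        (fun _ _ _ => sq_nonneg _)
      rwa [Finset.sum_pair (Ne.symm hi)] at this
    have h4 : 0 < E.coeff c ^ 2 := by positivity
    have h5 : 0 < E.coeff i ^ 2 := by positivity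
    omega
  have h3 : E.coeff c ^ 2 = 1 := by
    rw [← h1]
    symm
    apply Finset.sum_eq_single c
    · intro i _ hi; rw [h2 i hi]; ring
    · simp
  refine ⟨c, ?_⟩
  have : ((2 : ℕ) : GR M) ∣ E - single c 1 := by
    rw [natCast_dvd_iff]
    intro i
    by_cases hi : i = c
    · subst hi
      have h4 : (E.coeff i - 1) * (E.coeff i + 1) = 0 := by linear_combination h3
      rcases mul_eq_zero.mp h4 with h | h
      · have h5 : E.coeff i = 1 := by linarith
        simp [h5]
      · have h5 : E.coeff i = -1 := by linarith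
        simp [h5]
    · simp [h2 i hi, Ne.symm hi]
  exact_mod_cast this

theorem main_mult (M m : ℕ) [NeZero M] (hm : Odd m) (hM : M = 2 * m - 1) (V : GR M)
    (hV : V * str M V = (m : GR M) ^ 2)
    (hp : ∀ p : ℕ, p.Prime → p ∣ m → ∃ j, p ^ j ≡ 2 [MOD M]) :
    ∃ c : ZMod M, (2 : GR M) ∣ V - single c 1 := by
  have hm0 : 0 < m := hm.pos
  have hdiv : ∀ (p K : ℕ), p.Prime → p ^ K ∣ m ^ 2 →
      ((p : GR M)) ^ K ∣ phi M 2 V * str M V := by
    intro p K hpp hpK
    rcases Nat.eq_zero_or_pos K with rfl | hK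
    · simp
    have hpm : p ∣ m := hpp.dvd_of_dvd_pow ((dvd_pow_self p hK.ne').trans hpK)
    obtain ⟨j, hj⟩ := hp p hpp hpm
    have hcop : Nat.Coprime p M := by
      have h1 : Nat.Coprime m M := by
        rw [hM]
        have : Nat.Coprime m (2 * m - 1) := by
          have h2 : 2 * m - 1 + 1 = 2 * m := by omega
          have h3 : Nat.gcd m (2 * m - 1) ∣ 1 := by
            have ha : Nat.gcd m (2 * m - 1) ∣ 2 * m := (Nat.gcd_dvd_left _ _).mul_left 2
            have hb : Nat.gcd m (2 * m - 1) ∣ 2 * m - 1 := Nat.gcd_dvd_right _ _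
            rw [← h2] at ha
            exact (Nat.dvd_add_right hb).mp ha
          exact Nat.dvd_one.mp h3
        exact this
      exact Nat.Coprime.coprime_dvd_left hpm h1
    have hid : ∀ x : GR M, (phi M p)^[Nat.totient M] x = x := by
      intro x
      rw [phi_iter, phi_congr M (l := 1), phi_one]
      have := Nat.ModEq.pow_totient hcop
      have := (ZMod.natCast_eq_natCast_iff _ _ _).mpr this
      simpa using this
    have h1 := mult_iter p hpp (phi M p) (phi_frob M p hpp) (Nat.totient M)
      (Nat.totient_pos.mpr (NeZero.pos M)) hid (fun x hx => natCast_reg M p hpp.ne_zero x hx)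
      j K V (str M V) (by
        rw [hV]
        exact_mod_cast (Nat.cast_dvd_cast (α := GR M) hpK))
    rw [phi_iter, phi_congr M (l := 2)] at h1
    · exact h1
    · exact_mod_cast (ZMod.natCast_eq_natCast_iff _ _ _).mpr hj
  have hW : ((m ^ 2 : ℕ) : GR M) ∣ phi M 2 V * str M V := by
    rw [natCast_dvd_iff]
    intro i
    rw [Int.natCast_dvd, Nat.dvd_iff_prime_pow_dvd_dvd]
    intro p K hpp hpK
    have h1 := hdiv p K hpp hpK
    have h2 : ((p ^ K : ℕ) : GR M) ∣ phi M 2 V * str M V := by exact_mod_cast h1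
    rw [natCast_dvd_iff] at h2
    exact Int.natCast_dvd.mp (h2 i)
  obtain ⟨E, hE⟩ := hW
  have hcan : ∀ x y : GR M, ((m : GR M)) ^ 2 * x = (m : GR M) ^ 2 * y → x = y := by
    intro x y hxy
    have : ((m ^ 2 : ℕ) : GR M) * (x - y) = 0 := by
      push_cast; rw [mul_sub, hxy, sub_self]
    exact sub_eq_zero.mp (natCast_reg M _ (by positivity) _ this)
  have hE' : phi M 2 V * str M V = (m : GR M) ^ 2 * E := by rw [hE]; push_cast; ring
  have hphim : phi M 2 V * str M (phi M 2 V) = (m : GR M) ^ 2 := by
    rw [← phi_str, ← map_mul, hV]; simp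
  have hEE : E * str M E = 1 := by
    apply hcan; apply hcan
    have h1 : str M (phi M 2 V * str M V) = (m : GR M) ^ 2 * str M E := by
      rw [hE']; simp
    rw [map_mul, str_str] at h1
    calc (m : GR M) ^ 2 * ((m : GR M) ^ 2 * (E * str M E))
        = ((m : GR M) ^ 2 * E) * ((m : GR M) ^ 2 * str M E) := by ring
      _ = (phi M 2 V * str M V) * (str M (phi M 2 V) * V) := by rw [← h1, ← hE']
      _ = (phi M 2 V * str M (phi M 2 V)) * (V * str M V) := by ring
      _ = _ := by rw [hphim, hV]; ring
  obtain ⟨c, hc⟩ := unitary_one M E hEE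
  have hEV : E * V = phi M 2 V := by
    apply hcan
    calc (m : GR M) ^ 2 * (E * V) = ((m : GR M) ^ 2 * E) * V := by ring
      _ = (phi M 2 V * str M V) * V := by rw [hE']
      _ = phi M 2 V * (V * str M V) := by ring
      _ = _ := by rw [hV]; ring
  have h2 : (2 : GR M) ∣ phi M 2 V - V ^ 2 := by
    exact_mod_cast phi_frob M 2 Nat.prime_two V
  refine ⟨c, ?_⟩
  obtain ⟨k, hk⟩ := hm
  have hfin : V - single c 1 = -(phi M 2 V - V ^ 2) * str M V
      + (E - single c 1) * (V * str M V) - (2 * (2 * k ^ 2 + 2 * k) : GR M) * (V - single c 1) := by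
    have e1 : -(phi M 2 V - V ^ 2) * str M V + (E - single c 1) * (V * str M V)
        = (V - single c 1) * (V * str M V) := by
      rw [← hEV]; ring
    rw [e1, hV, hk]
    push_cast
    ring
  rw [hfin]
  apply dvd_sub
  · apply dvd_add
    · exact (dvd_neg.mpr h2).mul_right _
    · exact hc.mul_right _
  · rw [mul_assoc]; exact dvd_mul_right _ _

end Pool.Agent.TH726.PZ
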