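import Mathlib
import Pool.Agent.TH726.PZ.Mult
import Pool.Agent.TH726.PZ.Poly

/-! The multiplier condition. -/

namespace Pool.Agent.TH726.PZ

open AddMonoidAlgebra Polynomial

section gen
variable (M : ℕ)

/-- the generator of the cyclic group, in the group ring -/
noncomputable def sg : GR M := single 1 1
noncomputable def sgi : GR M := single (-1) 1

theorem sg_mul_sgi : sg M * sgi M = 1 := by
  rw [sg, sgi, single_mul_single]; simp [AddMonoidAlgebra.one_def]

theorem sgi_mul_sg : sgi M * sg M = 1 := by rw [mul_comm, sg_mul_sgi]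

theorem sg_pow (k : ℕ) : sg M ^ k = single (k : ZMod M) 1 := by
  rw [sg, single_pow]; simp

theorem sg_pow_M : sg M ^ M = 1 := by
  rw [sg_pow]; simp [AddMonoidAlgebra.one_def]

theorem str_sg : str M (sg M) = sgi M := by rw [sg, str_single, sgi]

/-- the sum of all group elements -/
noncomputable def Sg : GR M := ∑ i ∈ Finset.range M, sg M ^ i

theorem sg_mul_Sg : sg M * Sg M = Sg M := by
  have h := mul_geom_sum (sg M) M
  rw [sg_pow_M, sub_self] at h
  have : sg M * Sg M = (sg M - 1) * ∑ i ∈ Finset.range M, sg M ^ i + Sg M := by rw [Sg]; ring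
  rw [this, h, zero_add]

theorem sg_pow_mul_Sg (k : ℕ) : sg M ^ k * Sg M = Sg M := by
  induction k with
  | zero => simp
  | succ k ih => rw [pow_succ, mul_assoc, sg_mul_Sg, ih]

theorem sgi_mul_Sg : sgi M * Sg M = Sg M := by
  calc sgi M * Sg M = sgi M * (sg M * Sg M) := by rw [sg_mul_Sg]
    _ = (sgi M * sg M) * Sg M := by ring
    _ = _ := by rw [sgi_mul_sg, one_mul]

theorem Sg_mul_Sg : Sg M * Sg M = M * Sg M := by
  have : Sg M * Sg M = ∑ i ∈ Finset.range M, sg M ^ i * Sg M := by
    rw [← Finset.sum_mul]; rfl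
  rw [this]
  simp [sg_pow_mul_Sg]

theorem Sg_coeff [NeZero M] (j : ZMod M) : (Sg M).coeff j = 1 := by
  rw [Sg]
  have h1 : ∀ (s : Finset ℕ) , (∑ i ∈ s, sg M ^ i).coeff j = ∑ i ∈ s, (sg M ^ i).coeff j := by
    intro s; simp
  rw [h1]
  simp only [sg_pow, coeff_single]
  rw [Finset.sum_eq_single j.val]
  · simp
  · intro i hi hne
    rw [Finset.mem_range] at hi
    rw [Finsupp.single_apply, if_neg]
    intro h
    apply hne
    rw [← h, ZMod.val_natCast, Nat.mod_eq_of_lt hi]
  · intro h
    exact absurd (Finset.mem_range.mpr (ZMod.val_lt j)) h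

theorem str_Sg [NeZero M] : str M (Sg M) = Sg M := by
  -- `str Sg` is fixed by multiplication by `s` and has augmentation `M`
  have h1 : str M (Sg M) = ∑ i ∈ Finset.range M, sgi M ^ i := by
    rw [Sg, map_sum]; simp [str_sg]
  have h2 : sg M ^ (M - 1) * ∑ i ∈ Finset.range M, sgi M ^ i = Sg M := by
    rw [Finset.mul_sum, Sg, ← Finset.sum_range_reflect]
    apply Finset.sum_congr rfl
    intro i hi
    rw [Finset.mem_range] at hi
    have : sg M ^ (M - 1) = sg M ^ i * sg M ^ (M - 1 - i) := by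
      rw [← pow_add]; congr 1; omega
    rw [this, mul_assoc, ← mul_pow, sg_mul_sgi, one_pow, mul_one]
  have h3 : sg M ^ (M - 1) = sgi M := by
    have h4 : sg M ^ (M - 1) * sg M = 1 := by
      rw [← pow_succ, Nat.sub_add_cancel (NeZero.pos M), sg_pow_M]
    calc sg M ^ (M - 1) = sg M ^ (M - 1) * (sg M * sgi M) := by rw [sg_mul_sgi, mul_one]
      _ = (sg M ^ (M - 1) * sg M) * sgi M := by ring
      _ = _ := by rw [h4, one_mul]
  rw [h1]
  calc ∑ i ∈ Finset.range M, sgi M ^ i
      = (sg M * sgi M) * ∑ i ∈ Finset.range M, sgi M ^ i := by rw [sg_mul_sgi, one_mul]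
    _ = sg M * (sg M ^ (M - 1) * ∑ i ∈ Finset.range M, sgi M ^ i) := by rw [h3]; ring
    _ = _ := by rw [h2, sg_mul_Sg]

end gen

theorem condB (m : ℕ) (hm : 3 ≤ m) (hodd : Odd m) (P : ℤ[X]) (hdeg : P.natDegree = 2 * m - 1)
    (hP : P * P.reverse = dPoly m)
    (hall : ∀ p : ℕ, p.Prime → p ∣ m → ∃ j, p ^ j ≡ 2 [MOD 2 * m - 1]) : False := by
  obtain ⟨M, hM⟩ : ∃ M, M = 2 * m - 1 := ⟨_, rfl⟩
  have : NeZero M := ⟨by omega⟩
  rw [← hM] at hdeg hall
  set s := sg M with hs
  set s' := sgi M with hs'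
  have hss : s * s' = 1 := sg_mul_sgi M
  have hModd : Odd M := by rw [Nat.odd_iff]; omega
  have hsM : s ^ M = 1 := sg_pow_M M
  set i0 : ℤ →+* GR M := Int.castRingHom _ with hi0
  set G := eval₂ i0 (-s) P with hG
  have hstrG : str M G = eval₂ i0 (-s') P := by
    rw [hG, hom_eval₂, map_neg, hs, str_sg]
    congr 1
    exact RingHom.ext_int _ _
  have hrev : eval₂ i0 (-s) P.reverse = - str M G := by
    let _ : Invertible (-s') := ⟨-s, by rw [neg_mul_neg, hss], by rw [neg_mul_neg, mul_comm, hss]⟩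
    have h1 := eval₂_reverse_mul_pow i0 (-s') P
    have h2 : ⅟(-s') = -s := rfl
    rw [h2, hdeg, ← hstrG] at h1
    have h3 : (-s') ^ M * (-s) ^ M = 1 := by
      rw [← mul_pow, neg_mul_neg, mul_comm, hss, one_pow]
    have h4 : (-s) ^ M = -1 := by rw [hModd.neg_pow, hsM]
    calc eval₂ i0 (-s) P.reverse = eval₂ i0 (-s) P.reverse * ((-s') ^ M * (-s) ^ M) := by
          rw [h3, mul_one]
      _ = (eval₂ i0 (-s) P.reverse * (-s') ^ M) * (-s) ^ M := by ring
      _ = _ := by rw [h1, h4]; ring
  have heP : ∀ k, eval₂ i0 (-s) (ePoly k) = ∑ i ∈ Finset.range k, s ^ i := by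
    intro k
    rw [ePoly, eval₂_finsetSum]
    apply Finset.sum_congr rfl
    intro i _
    rw [eval₂_pow, eval₂_neg, eval₂_X, neg_neg]
  have he1 : eval₂ i0 (-s) (ePoly (2 * m - 1)) = Sg M := by
    rw [heP, ← hM]; rfl
  have he2 : eval₂ i0 (-s) (ePoly (2 * m + 1)) = Sg M + 1 + s := by
    rw [heP, show 2 * m + 1 = (M + 1) + 1 by omega, Finset.sum_range_succ, Finset.sum_range_succ,
      hsM, pow_succ, hsM, one_mul]; rfl
  have hsM1 : s ^ (M - 1) = s' := by
    have h4 : s ^ (M - 1) * s = 1 := by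
      rw [← pow_succ, Nat.sub_add_cancel (NeZero.pos M), hsM]
    calc s ^ (M - 1) = s ^ (M - 1) * (s * s') := by rw [hss, mul_one]
      _ = (s ^ (M - 1) * s) * s' := by ring
      _ = _ := by rw [h4, one_mul]
  have hSS := Sg_mul_Sg M
  have hsS : s * Sg M = Sg M := sg_mul_Sg M
  have hd : eval₂ i0 (-s) (dPoly m) = (M + 2) * Sg M - (m : GR M) ^ 2 * s' * (1 + s) ^ 2 := by
    rw [dPoly, eval₂_sub, eval₂_mul, he1, he2, eval₂_mul, eval₂_mul, eval₂_pow, eval₂_pow,
      eval₂_pow, eval₂_sub, eval₂_X, eval₂_one, eval₂_natCast]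
    have h1 : (-s) ^ (2 * m - 2) = s' := by
      rw [show 2 * m - 2 = M - 1 by omega, ← hsM1]
      apply Even.neg_pow
      rw [Nat.even_iff]; omega
    rw [h1]
    linear_combination hSS + hsS
  have hGG : G * str M G = (m : GR M) ^ 2 * s' * (1 + s) ^ 2 - (M + 2) * Sg M := by
    have := congrArg (eval₂ i0 (-s)) hP
    rw [eval₂_mul, hrev, hd] at this
    linear_combination -this
  set ρ := ∑ i ∈ Finset.range m, (s ^ 2) ^ i with hρ
  have hρ1 : (1 + s) * ρ = 1 + Sg M := by
    have h1 : ∀ k, (1 + s) * ∑ i ∈ Finset.range k, (s ^ 2) ^ i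
        = ∑ i ∈ Finset.range (2 * k), s ^ i := by
      intro k
      induction k with
      | zero => simp
      | succ k ih =>
        rw [Finset.sum_range_succ, mul_add, ih, show 2 * (k + 1) = 2 * k + 1 + 1 by ring,
          Finset.sum_range_succ, Finset.sum_range_succ]
        ring
    rw [hρ, h1, show 2 * m = M + 1 by omega, Finset.sum_range_succ, hsM]
    rw [Sg]; ring
  have hρS : ρ * Sg M = m * Sg M := by
    rw [hρ, Finset.sum_mul]
    simp only [← pow_mul, hs, sg_pow_mul_Sg]
    simp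
  have hρ1' : (1 + s') * str M ρ = 1 + Sg M := by
    have := congrArg (str M) hρ1
    rw [map_mul, map_add, map_one, map_add, map_one, str_Sg, hs, str_sg] at this
    exact this
  have hρS' : str M ρ * Sg M = m * Sg M := by
    have := congrArg (str M) hρS
    rw [map_mul, map_mul, str_Sg, map_natCast] at this
    exact this
  set V := ρ * G with hV
  have hVV : V * str M V = (m : GR M) ^ 2 := by
    have h1 : V * str M V = (ρ * str M ρ) * (G * str M G) := by rw [hV, map_mul]; ring
    rw [h1, hGG]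
    have h2 : ρ * str M ρ * ((m : GR M) ^ 2 * s' * (1 + s) ^ 2)
        = (m : GR M) ^ 2 * (1 + Sg M) ^ 2 := by
      have : ρ * str M ρ * ((m : GR M) ^ 2 * s' * (1 + s) ^ 2)
        = (m : GR M) ^ 2 * ((1 + s) * ρ) * ((s' + s * s') * str M ρ) := by ring
      rw [this, hss, hρ1, add_comm s' 1, hρ1']; ring
    have h3 : ρ * str M ρ * ((M + 2) * Sg M) = (m : GR M) ^ 2 * ((M + 2) * Sg M) := by
      calc ρ * str M ρ * ((M + 2) * Sg M) = (M + 2) * (ρ * (str M ρ * Sg M)) := by ring
        _ = (M + 2) * (m * (ρ * Sg M)) := by rw [hρS']; ring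
        _ = _ := by rw [hρS]; ring
    rw [mul_sub, h2, h3]
    linear_combination (m : GR M) ^ 2 * hSS
  obtain ⟨c, hc⟩ := main_mult M m hodd hM V hVV hall
  have hSG : Sg M * G = ((P.eval (-1) : ℤ) : GR M) * Sg M := by
    have h1 : ∀ Q : ℤ[X], Sg M * eval₂ i0 (-s) Q = ((Q.eval (-1) : ℤ) : GR M) * Sg M := by
      intro Q
      induction Q using Polynomial.induction_on' with
      | add p q hp hq => rw [eval₂_add, mul_add, hp, hq, eval_add]; push_cast; ring
      | monomial n a =>
        rw [eval₂_monomial, eval_monomial, neg_pow s, neg_pow]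
        push_cast
        have h2 : i0 a = (a : GR M) := rfl
        rw [h2]
        have h3 := sg_pow_mul_Sg M n
        rw [← hs] at h3
        linear_combination (a : GR M) * (-1) ^ n * h3
    exact h1 P
  have hG2 : G = (1 + s) * V - ((P.eval (-1) : ℤ) : GR M) * Sg M := by
    have h1 : (1 + s) * V = G + Sg M * G := by
      rw [hV, ← mul_assoc, hρ1]; ring
    rw [h1, hSG]; ring
  -- parity of P(-1)
  have hP1 : P.eval 1 = 1 ∨ P.eval 1 = -1 := by
    have := congrArg (eval 1) hP
    rw [eval_mul, eval_one_reverse, dPoly_eval_one m (by omega)] at this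
    have h4 : (P.eval 1 - 1) * (P.eval 1 + 1) = 0 := by linear_combination this
    rcases mul_eq_zero.mp h4 with h | h
    · left; linarith
    · right; linarith
  have hPm1 : ∃ r : ℤ, P.eval (-1) = 2 * r + 1 := by
    have h1 : (1 : ℤ) - (-1) ∣ P.eval 1 - P.eval (-1) := sub_dvd_eval_sub _ _ _
    obtain ⟨w, hw⟩ := h1
    rcases hP1 with h | h
    · exact ⟨-w, by rw [h] at hw; linarith⟩
    · exact ⟨-w - 1, by rw [h] at hw; linarith⟩
  obtain ⟨r, hr⟩ := hPm1
  have hGmod : ((2 : ℕ) : GR M) ∣ G - ((1 + s) * single c 1 + Sg M) := by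
    have : G - ((1 + s) * single c 1 + Sg M)
        = (1 + s) * (V - single c 1) - 2 * (((r + 1 : ℤ) : GR M) * Sg M) := by
      rw [hG2, hr]; push_cast; ring
    rw [this]
    push_cast
    exact dvd_sub (hc.mul_left _) (dvd_mul_right _ _)
  rw [natCast_dvd_iff] at hGmod
  have hcoef : ∀ j : ZMod M, (2 : ℤ) ∣ G.coeff j -
      ((if c = j then 1 else 0) + (if 1 + c = j then 1 else 0) + 1) := by
    intro j
    have h1 := hGmod j
    have h2 : (G - ((1 + s) * single c 1 + Sg M)).coeff j = G.coeff j -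
      ((if c = j then 1 else 0) + (if 1 + c = j then 1 else 0) + 1) := by
      rw [AddMonoidAlgebra.coeff_sub, Finsupp.sub_apply, AddMonoidAlgebra.coeff_add,
        Finsupp.add_apply, Sg_coeff, add_mul, one_mul,
        hs, sg, single_mul_single, AddMonoidAlgebra.coeff_add, Finsupp.add_apply]
      simp [Finsupp.single_apply]
    rw [h2] at h1
    exact h1
  -- the coefficients of `G`
  have hGsum : ∀ j : ZMod M, G.coeff j = ∑ i ∈ Finset.range (M + 1),
      if (i : ZMod M) = j then (-1) ^ i * P.coeff i else 0 := by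
    intro j
    rw [hG, eval₂_eq_sum_range, hdeg]
    have h1 : ∀ (t : Finset ℕ) (f : ℕ → GR M), (∑ i ∈ t, f i).coeff j = ∑ i ∈ t, (f i).coeff j := by
      intro t f; simp
    rw [h1]
    apply Finset.sum_congr rfl
    intro i _
    have h2 : i0 (P.coeff i) * (-s) ^ i = single (i : ZMod M) ((-1) ^ i * P.coeff i) := by
      rw [neg_pow, hs, sg_pow]
      have h3 : i0 (P.coeff i) = single (0 : ZMod M) (P.coeff i) := rfl
      have h4 : ((-1 : GR M)) ^ i = single (0 : ZMod M) ((-1) ^ i) := by
        have : (-1 : GR M) = single (0 : ZMod M) (-1) := by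
          rw [AddMonoidAlgebra.single_neg]; rfl
        rw [this, single_pow]; simp
      rw [h3, h4, ← mul_assoc, single_mul_single, single_mul_single]
      simp [mul_comm]
    rw [h2, coeff_single, Finsupp.single_apply]
  have hcast : ∀ i k : ℕ, i < M → k < M → (i : ZMod M) = (k : ZMod M) → i = k := by
    intro i k hi hk h
    have := (ZMod.natCast_eq_natCast_iff' _ _ _).mp h
    rwa [Nat.mod_eq_of_lt hi, Nat.mod_eq_of_lt hk] at this
  have hsumk : ∀ k : ℕ, 1 ≤ k → k < M → G.coeff (k : ZMod M) = (-1) ^ k * P.coeff k := by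
    intro k hk1 hk
    rw [hGsum, Finset.sum_range_succ, if_neg, add_zero, Finset.sum_eq_single k]
    · simp
    · intro i hi hne
      rw [Finset.mem_range] at hi
      rw [if_neg]
      intro h; exact hne (hcast i k hi hk h)
    · intro h; exact absurd (Finset.mem_range.mpr hk) h
    · intro h
      have : ((0 : ℕ) : ZMod M) = (k : ZMod M) := by rw [← h]; simp
      have := hcast 0 k (by omega) hk this
      omega
  have hG0 : G.coeff 0 = P.coeff 0 - P.coeff M := by
    rw [hGsum, Finset.sum_range_succ, if_pos (by simp), Finset.sum_eq_single 0]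
    · simp [hModd.neg_one_pow]; ring
    · intro i hi hne
      rw [Finset.mem_range] at hi
      rw [if_neg]
      intro h; exact hne (hcast i 0 hi (by omega) (by simpa using h))
    · intro h; exact absurd (Finset.mem_range.mpr (by omega)) h
  have hG1 : G.coeff 1 = - P.coeff 1 := by
    have := hsumk 1 le_rfl (by omega)
    simpa using this
  have hGm1 : G.coeff (-1) = P.coeff (M - 1) := by
    have := hsumk (M - 1) (by omega) (by omega)
    rw [Even.neg_one_pow (by rw [Nat.even_iff]; omega), one_mul] at this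
    rw [← this]
    congr 1
    rw [Nat.cast_sub (by omega)]
    simp
  -- coefficients of `P * P.reverse`
  have hc0 : P.coeff 0 * P.coeff M = 1 := by
    have := congrArg (fun Q => Polynomial.coeff Q 0) hP
    simp only [mul_coeff_zero, coeff_zero_reverse, dPoly_coeff_zero m (by omega : 2 ≤ m)] at this
    rwa [Polynomial.leadingCoeff, hdeg] at this
  have hc1 : P.coeff 0 * P.coeff (M - 1) + P.coeff 1 * P.coeff M = -2 := by
    have := congrArg (fun Q => Polynomial.coeff Q 1) hP
    simp only [dPoly_coeff_one m (by omega : 2 ≤ m)] at this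
    rw [Polynomial.coeff_mul, Finset.Nat.antidiagonal_succ] at this
    simp only [Finset.sum_cons, Finset.Nat.antidiagonal_zero, Finset.map_singleton,
      Finset.sum_singleton, Function.Embedding.prodMap, Function.Embedding.coeFn_mk,
      Prod.map, Function.Embedding.refl_apply, coeff_reverse, hdeg] at this
    rw [revAt_le (by omega), revAt_le (by omega)] at this
    simpa using this
  have hP0M : (P.coeff 0 = 1 ∧ P.coeff M = 1) ∨ (P.coeff 0 = -1 ∧ P.coeff M = -1) :=
    Int.eq_one_or_neg_one_of_mul_eq_one' hc0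
  have hG00 : G.coeff 0 = 0 := by
    rw [hG0]; rcases hP0M with ⟨h1, h2⟩ | ⟨h1, h2⟩ <;> rw [h1, h2] <;> ring
  have heven : (2 : ℤ) ∣ G.coeff 1 + G.coeff (-1) := by
    rw [hG1, hGm1]
    rcases hP0M with ⟨h1, h2⟩ | ⟨h1, h2⟩
    · rw [h1, h2] at hc1; omega
    · rw [h1, h2] at hc1; omega
  have k0 := hcoef 0
  have k1 := hcoef 1
  have k2 := hcoef (-1)
  rw [hG00] at k0
  have n10 : (1 : ZMod M) ≠ 0 := by
    intro h
    have := hcast 1 0 (by omega) (by omega) (by simpa using h)
    omega
  have n1m : (1 : ZMod M) ≠ -1 := by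
    intro h
    have h2 : ((2 : ℕ) : ZMod M) = ((0 : ℕ) : ZMod M) := by
      push_cast
      linear_combination h
    have := hcast 2 0 (by omega) (by omega) h2
    omega
  by_cases hc0' : c = 0
  · subst hc0'
    rw [if_neg (Ne.symm n10), add_zero, if_pos rfl] at k1
    rw [if_neg (by intro h; exact n10 (neg_eq_zero.mp h.symm)), add_zero, if_neg n1m] at k2
    omega
  · by_cases hc1' : 1 + c = 0
    · have hcc : c = -1 := by linear_combination hc1'
      subst hcc
      rw [if_neg (Ne.symm n1m), if_neg (by rw [hc1']; exact Ne.symm n10)] at k1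
      rw [if_pos rfl, if_neg (by rw [hc1']; intro h; exact n10 (neg_eq_zero.mp h.symm))] at k2
      omega
    · rw [if_neg hc0', if_neg hc1'] at k0
      omega

end Pool.Agent.TH726.PZ
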