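import Mathlib
import Pool.Agent.TH726.PZ.CondB
import Pool.Agent.TH726.PZ.Bridge
import Pool.Agent.TH397.PZ.Final

/-! The multiplier condition for the knots `P(2b-1, -(2b+1), -2b²)`. -/

namespace Pool.Agent.TH726.PZ

open Pool.Agent.TH397.PZ (num IsAlexander FoxMilnor)

/-- If the Alexander polynomial of `P(2b-1, -(2b+1), -2b²)` satisfies the condition of Fox and
Milnor then for some prime divisor `p` of `b` the residue `2` is not a power of `p` modulo
`2b-1`; in particular `b` is not a prime power. -/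
theorem multiplier {b : ℕ} (hb : 2 ≤ b) {D : LaurentPolynomial ℤ}
    (hD : IsAlexander (2 * b - 1) (-(2 * b + 1)) (-(b : ℤ) ^ 2) D) (hf : FoxMilnor D) :
    ∃ p : ℕ, p.Prime ∧ p ∣ b ∧ ∀ j : ℕ, ¬ p ^ j ≡ 2 [MOD 2 * b - 1] := by
  have h4 := (Pool.Agent.TH397.PZ.consequences hb hD hf).2.1
  obtain ⟨P, hdeg, hP⟩ := bridge b hb D hD hf
  by_contra hcon
  push Not at hcon
  exact condB b (by omega) (by rw [Nat.odd_iff]; omega) P hdeg hP hcon

theorem not_isPrimePow {b : ℕ} (hb : 2 ≤ b) {D : LaurentPolynomial ℤ}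
    (hD : IsAlexander (2 * b - 1) (-(2 * b + 1)) (-(b : ℤ) ^ 2) D) (hf : FoxMilnor D) :
    ¬ IsPrimePow b := by
  intro hpp
  obtain ⟨p, hp, hpb, hj⟩ := multiplier hb hD hf
  obtain ⟨r, k, hr, hk, hrk⟩ := hpp
  have hr' : r.Prime := hr.nat_prime
  have hpr : p = r := by
    rw [← hrk] at hpb
    exact (Nat.prime_dvd_prime_iff_eq hp hr').mp (hp.dvd_of_dvd_pow hpb)
  subst hpr
  have hcop : Nat.Coprime b (2 * b - 1) := by
    have h2 : 2 * b - 1 + 1 = 2 * b := by omega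
    have h3 : Nat.gcd b (2 * b - 1) ∣ 1 := by
      have ha : Nat.gcd b (2 * b - 1) ∣ 2 * b := (Nat.gcd_dvd_left _ _).mul_left 2
      have hb : Nat.gcd b (2 * b - 1) ∣ 2 * b - 1 := Nat.gcd_dvd_right _ _
      rw [← h2] at ha
      exact (Nat.dvd_add_right hb).mp ha
    exact Nat.dvd_one.mp h3
  have hcop' : Nat.Coprime p (2 * b - 1) := Nat.Coprime.coprime_dvd_left hpb hcop
  have h1 := Nat.ModEq.pow_totient hcop'
  set φ := Nat.totient (2 * b - 1) with hφ
  have hφpos : 0 < φ := Nat.totient_pos.mpr (by omega)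
  apply hj (k * (φ - 1))
  -- `b * p ^ (k (φ - 1)) = p ^ (k φ) ≡ 1 ≡ 2 b`
  have h2 : b * p ^ (k * (φ - 1)) ≡ b * 2 [MOD 2 * b - 1] := by
    have h3 : b * p ^ (k * (φ - 1)) = (p ^ φ) ^ k := by
      rw [← hrk, ← pow_add, ← pow_mul]
      congr 1
      obtain ⟨u, hu⟩ : ∃ u, φ = u + 1 := ⟨φ - 1, by omega⟩
      rw [hu, Nat.add_sub_cancel]; ring
    rw [h3]
    have h4 := h1.pow k
    rw [one_pow] at h4
    refine h4.trans ?_
    have h5 : 2 * b - 1 + 1 = b * 2 := by omega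
    have h6 : (2 * b - 1) + 1 ≡ 1 [MOD 2 * b - 1] := by
      simp [Nat.ModEq]
    rw [h5] at h6
    exact h6.symm
  exact Nat.ModEq.cancel_left_of_coprime (by rw [Nat.gcd_comm]; exact hcop) h2

end Pool.Agent.TH726.PZ
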