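import Mathlib
import Pool.Agent.TH397.PZ.Defs

/-! Metabolic Seifert matrices satisfy the condition of Fox and Milnor. -/

namespace Pool.Agent.TH726.PZ

open Pool.Agent.TH397.PZ (FoxMilnor)
open Matrix LaurentPolynomial

/-- `det (t V - Vᵀ)`, an Alexander polynomial of a knot with Seifert matrix `V` -/
noncomputable def seifertPoly {n : Type*} [Fintype n] [DecidableEq n] (V : Matrix n n ℤ) :
    ℤ[T;T⁻¹] :=
  ((T 1 : ℤ[T;T⁻¹]) • V.map (C : ℤ →+* ℤ[T;T⁻¹]) - (V.map (C : ℤ →+* ℤ[T;T⁻¹]))ᵀ).det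

/-- a Seifert matrix of size `2g` is metabolic (the knot is algebraically slice) if it is congruent over `ℤ`
to a matrix with a vanishing upper left block of size `g` -/
def Metabolic {g : ℕ} (V : Matrix (Fin g ⊕ Fin g) (Fin g ⊕ Fin g) ℤ) : Prop :=
  ∃ P : Matrix (Fin g ⊕ Fin g) (Fin g ⊕ Fin g) ℤ, IsUnit P.det ∧ (P * V * Pᵀ).toBlocks₁₁ = 0

theorem unit_pm {e : ℤ} (h : IsUnit e) : e = 1 ∨ e = -1 := Int.isUnit_iff.mp h

theorem seifertPoly_congr {n : Type*} [Fintype n] [DecidableEq n] (P V : Matrix n n ℤ) :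
    seifertPoly (P * V * Pᵀ) = C (P.det ^ 2) * seifertPoly V := by
  rw [seifertPoly, seifertPoly]
  set c : ℤ →+* ℤ[T;T⁻¹] := C with hc
  have h1 : (P * V * Pᵀ).map c = P.map c * V.map c * (P.map c)ᵀ := by
    rw [Matrix.map_mul, Matrix.map_mul, transpose_map]
  have h2 : (T 1 : ℤ[T;T⁻¹]) • (P.map c * V.map c * (P.map c)ᵀ) - (P.map c * V.map c * (P.map c)ᵀ)ᵀ
      = P.map c * ((T 1 : ℤ[T;T⁻¹]) • V.map c - (V.map c)ᵀ) * (P.map c)ᵀ := by
    rw [transpose_mul, transpose_mul, transpose_transpose, Matrix.mul_sub, Matrix.sub_mul,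
      Matrix.mul_smul, Matrix.smul_mul, Matrix.mul_assoc (P.map c) (V.map c)ᵀ]
  rw [h1, h2, det_mul, det_mul, det_transpose]
  have h3 : (P.map c).det = c P.det := by
    rw [RingHom.map_det]; rfl
  rw [h3, map_pow]; ring

theorem det_zero₁₁ {R : Type*} [CommRing R] {g : ℕ} (A B D : Matrix (Fin g) (Fin g) R) :
    ∃ e : ℤ, (e = 1 ∨ e = -1) ∧ (fromBlocks 0 A B D).det = (e : R) * (A.det * B.det) := by
  let J : Matrix (Fin g ⊕ Fin g) (Fin g ⊕ Fin g) ℤ := fromBlocks 0 1 1 0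
  have hJJ : J * J = 1 := by
    simp only [J, fromBlocks_multiply]
    simp
  have hJ : J.det = 1 ∨ J.det = -1 := by
    have := congrArg det hJJ
    rw [det_mul, det_one] at this
    exact (Int.eq_one_or_neg_one_of_mul_eq_one' this).imp And.left And.left
  refine ⟨J.det, hJ, ?_⟩
  have h1 : fromBlocks 0 A B D = fromBlocks A 0 D B * J.map (Int.castRingHom R) := by
    have : J.map (Int.castRingHom R) = fromBlocks 0 1 1 0 := by
      simp only [J, fromBlocks_map]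
      simp
    rw [this, fromBlocks_multiply]
    simp
  rw [h1, det_mul, det_fromBlocks_zero₁₂]
  have h2 : (J.map (Int.castRingHom R)).det = ((J.det : ℤ) : R) := by
    have := (RingHom.map_det (Int.castRingHom R) J)
    rw [eq_intCast] at this
    rw [this]; rfl
  rw [h2]; ring

/-- the Alexander polynomial of a metabolic Seifert matrix satisfies the condition of Fox and Milnor -/
theorem metabolic_foxMilnor {g : ℕ} (V : Matrix (Fin g ⊕ Fin g) (Fin g ⊕ Fin g) ℤ) (hV : Metabolic V) :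
    FoxMilnor (seifertPoly V) := by
  obtain ⟨P, hP, h0⟩ := hV
  have hd : P.det ^ 2 = 1 := by
    rcases unit_pm hP with h | h <;> rw [h] <;> norm_num
  have h1 := seifertPoly_congr P V
  rw [hd, map_one, one_mul] at h1
  rw [← h1]
  set W := P * V * Pᵀ with hW
  obtain ⟨A, hA⟩ : ∃ A, A = W.toBlocks₁₂ := ⟨_, rfl⟩
  obtain ⟨B, hB⟩ : ∃ B, B = W.toBlocks₂₁ := ⟨_, rfl⟩
  obtain ⟨D, hD⟩ : ∃ D, D = W.toBlocks₂₂ := ⟨_, rfl⟩
  have hWb : W = fromBlocks 0 A B D := by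
    rw [hA, hB, hD, ← h0, fromBlocks_toBlocks]
  set c : ℤ →+* ℤ[T;T⁻¹] := C with hc
  have h2 : seifertPoly W = (fromBlocks 0 ((T 1 : ℤ[T;T⁻¹]) • A.map c - (B.map c)ᵀ)
      ((T 1 : ℤ[T;T⁻¹]) • B.map c - (A.map c)ᵀ)
      ((T 1 : ℤ[T;T⁻¹]) • D.map c - (D.map c)ᵀ)).det := by
    rw [seifertPoly, hWb, fromBlocks_map, fromBlocks_transpose, fromBlocks_smul]
    congr 1
    ext i j
    rcases i with i | i <;> rcases j with j | j <;> simp
  obtain ⟨e, he, h3⟩ := det_zero₁₁ ((T 1 : ℤ[T;T⁻¹]) • A.map c - (B.map c)ᵀ)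
      ((T 1 : ℤ[T;T⁻¹]) • B.map c - (A.map c)ᵀ) ((T 1 : ℤ[T;T⁻¹]) • D.map c - (D.map c)ᵀ)
  rw [h2, h3]
  set f := ((T 1 : ℤ[T;T⁻¹]) • A.map c - (B.map c)ᵀ).det with hf
  have h4 : ((T 1 : ℤ[T;T⁻¹]) • B.map c - (A.map c)ᵀ).det = (-1) ^ g * T g * invert f := by
    have h5 : (T 1 : ℤ[T;T⁻¹]) • B.map c - (A.map c)ᵀ
        = (-(T 1 : ℤ[T;T⁻¹])) • ((T (-1) : ℤ[T;T⁻¹]) • A.map c - (B.map c)ᵀ)ᵀ := by
      rw [transpose_sub, transpose_smul, transpose_transpose, smul_sub, smul_smul, neg_mul,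
        ← T_add]
      simp only [add_neg_cancel, T_zero, neg_smul, one_smul]
      abel
    have h6 : invert f = ((T (-1) : ℤ[T;T⁻¹]) • A.map c - (B.map c)ᵀ).det := by
      rw [hf]
      have := (RingHom.map_det ((invert : ℤ[T;T⁻¹] ≃ₐ[ℤ] ℤ[T;T⁻¹]) : ℤ[T;T⁻¹] →+* ℤ[T;T⁻¹])
        ((T 1 : ℤ[T;T⁻¹]) • A.map c - (B.map c)ᵀ))
      rw [show invert ((T 1 : ℤ[T;T⁻¹]) • A.map c - (B.map c)ᵀ).det = _ from this]
      congr 1
      ext i j
      simp [hc]
    rw [h5, det_smul, det_transpose, h6, Fintype.card_fin, neg_pow, T_pow]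
    simp
  rw [h4]
  refine ⟨e * (-1) ^ g, g, f, ?_, ?_⟩
  · rcases he with h | h <;> rcases Nat.even_or_odd g with h' | h' <;>
      simp [h, h'.neg_one_pow]
  · rw [map_mul, map_pow, map_neg, map_one]
    have : (C e : ℤ[T;T⁻¹]) = (e : ℤ[T;T⁻¹]) := by simp
    rw [this]; ring

/-- if a metabolic matrix has Alexander polynomial `D` up to units, then `D` satisfies the condition of
Fox and Milnor -/
theorem foxMilnor_of_metabolic {g : ℕ} (V : Matrix (Fin g ⊕ Fin g) (Fin g ⊕ Fin g) ℤ)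
    (hV : Metabolic V) (D : ℤ[T;T⁻¹])
    (hD : ∃ e k : ℤ, (e = 1 ∨ e = -1) ∧ seifertPoly V = C e * T k * D) : FoxMilnor D := by
  obtain ⟨e, k, he, h⟩ := hD
  obtain ⟨e', k', f, he', h'⟩ := metabolic_foxMilnor V hV
  refine ⟨e * e', k' - k, f, ?_, ?_⟩
  · rcases he with h1 | h1 <;> rcases he' with h2 | h2 <;> simp [h1, h2]
  · have h1 : (C e : ℤ[T;T⁻¹]) * C e = 1 := by
      rw [← map_mul]
      rcases he with h1 | h1 <;> simp [h1]
    have h2 : (T k : ℤ[T;T⁻¹]) * T (-k) = 1 := by rw [← T_add]; simp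
    calc D = (C e * C e) * (T k * T (-k)) * D := by rw [h1, h2]; ring
      _ = C e * T (-k) * (C e * T k * D) := by ring
      _ = _ := by
        rw [← h, h', map_mul, sub_eq_add_neg, T_add]; ring

end Pool.Agent.TH726.PZ
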